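import Mathlib

set_option autoImplicit false

open Set Topology

namespace Pool.Agent.H65.WP

/-- The Euclidean space `ℝ^n`. -/
abbrev Eu (n : ℕ) : Type := EuclideanSpace ℝ (Fin n)

/-- `G` has smaller width than `F` in every direction. -/
def SmallerWidth {n : ℕ} (G F : Set (Eu n)) : Prop :=
  ∀ u : Eu n, ‖u‖ = 1 →
    sSup ((fun x => inner ℝ u x) '' G) - sInf ((fun x => inner ℝ u x) '' G)
      < sSup ((fun x => inner ℝ u x) '' F) - sInf ((fun x => inner ℝ u x) '' F)

/-- `F` is the disjoint union of `k` sets of smaller width. -/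
def SplitsInto {n : ℕ} (F : Set (Eu n)) (k : ℕ) : Prop :=
  ∃ G : Fin k → Set (Eu n), (⋃ i, G i) = F ∧ (∀ i j, i ≠ j → Disjoint (G i) (G j)) ∧
    ∀ i, SmallerWidth (G i) F

theorem bdd_above_image {n : ℕ} {F : Set (Eu n)} (hF : IsCompact F) (u : Eu n) :
    BddAbove ((fun x => inner ℝ u x) '' F) :=
  (hF.image (by fun_prop)).bddAbove

theorem bdd_below_image {n : ℕ} {F : Set (Eu n)} (hF : IsCompact F) (u : Eu n) :
    BddBelow ((fun x => inner ℝ u x) '' F) :=
  (hF.image (by fun_prop)).bddBelow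

/-- two interior points of a translate give a lower bound for the width -/
theorem width_gt {n : ℕ} {F : Set (Eu n)} (hF : IsCompact F) (u : Eu n) (hu : ‖u‖ = 1)
    {x y : Eu n} (hx : x ∈ interior F) (hy : y ∈ interior F) :
    inner ℝ u x - inner ℝ u y
      < sSup ((fun x => inner ℝ u x) '' F) - sInf ((fun x => inner ℝ u x) '' F) := by
  have key : ∀ (z v : Eu n), z ∈ interior F → ∃ δ : ℝ, 0 < δ ∧ z + δ • v ∈ F := by
    intro z v hz
    have h1 : ContinuousAt (fun δ : ℝ => z + δ • v) 0 := by fun_prop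
    have h2 : F ∈ 𝓝 (z + (0 : ℝ) • v) := by
      rw [zero_smul, add_zero]; exact mem_interior_iff_mem_nhds.1 hz
    have h3 : ∀ᶠ δ : ℝ in 𝓝[>] 0, z + δ • v ∈ F :=
      (h1.eventually h2).filter_mono nhdsWithin_le_nhds
    obtain ⟨δ, h4, h5⟩ := (h3.and self_mem_nhdsWithin).exists
    exact ⟨δ, h5, h4⟩
  obtain ⟨δ, hδ, h1⟩ := key x u hx
  obtain ⟨ε, hε, h2⟩ := key y (-u) hy
  have h3 := le_csSup (bdd_above_image hF u) ⟨_, h1, rfl⟩
  have h4 := csInf_le (bdd_below_image hF u) ⟨_, h2, rfl⟩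
  have huu : inner ℝ u u = (1 : ℝ) := by rw [real_inner_self_eq_norm_sq, hu]; norm_num
  simp only [inner_add_right, inner_smul_right, inner_neg_right, huu] at h3 h4
  linarith

theorem smallerWidth_of_subset {n : ℕ} {F : Set (Eu n)} (hF : IsCompact F)
    (hFi : (interior F).Nonempty) {G C : Set (Eu n)} (hGC : G ⊆ C) (hC : IsCompact C) (t : Eu n)
    (hCt : C ⊆ (fun x => t + x) '' interior F) : SmallerWidth G F := by
  intro u hu
  rcases G.eq_empty_or_nonempty with rfl | hG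
  · obtain ⟨x, hx⟩ := hFi
    have := width_gt hF u hu hx hx
    simpa using this
  have hCne : C.Nonempty := hG.mono hGC
  have hcont : ContinuousOn (fun x => inner ℝ u x) C := by fun_prop
  obtain ⟨x, hxC, hx⟩ := hC.exists_isMaxOn hCne hcont
  obtain ⟨y, hyC, hy⟩ := hC.exists_isMinOn hCne hcont
  obtain ⟨x', hx', rfl⟩ := hCt hxC
  obtain ⟨y', hy', rfl⟩ := hCt hyC
  have h1 := width_gt hF u hu hx' hy'
  have h2 : sSup ((fun x => inner ℝ u x) '' G) ≤ inner ℝ u (t + x') := by
    refine csSup_le (hG.image _) ?_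
    rintro _ ⟨z, hz, rfl⟩
    exact hx (hGC hz)
  have h3 : inner ℝ u (t + y') ≤ sInf ((fun x => inner ℝ u x) '' G) := by
    refine le_csInf (hG.image _) ?_
    rintro _ ⟨z, hz, rfl⟩
    exact hy (hGC hz)
  simp only [inner_add_right] at h2 h3
  linarith

/-- shrinking a covering by translates of the interior -/
theorem shrink {n : ℕ} {F : Set (Eu n)} (hF : IsCompact F) (T : Finset (Eu n)) :
    ∃ C : Eu n → Set (Eu n), (∀ t, IsCompact (C t)) ∧ (∀ t, C t ⊆ F) ∧
      (∀ t, C t ⊆ (fun y => t + y) '' interior F) ∧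
      ∀ x ∈ F, ∃ y ∈ F, ∀ t ∈ T, y ∈ (fun z => t + z) '' interior F → x ∈ C t := by
  classical
  let U : Eu n → Set (Eu n) := fun t => (fun z => t + z) '' interior F
  have hU : ∀ t, IsOpen (U t) := fun t => (isOpenMap_add_left t) _ isOpen_interior
  -- a closed ball around each point
  have hball : ∀ y : Eu n, ∃ r : ℝ, 0 < r ∧ ∀ t ∈ T, y ∈ U t → Metric.closedBall y r ⊆ U t := by
    intro y
    have h1 : ∀ᶠ r : ℝ in 𝓝[>] 0, ∀ t ∈ T, y ∈ U t → Metric.closedBall y r ⊆ U t := by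
      rw [Filter.eventually_all_finset]
      intro t _
      by_cases hy : y ∈ U t
      · obtain ⟨ε, hε, h2⟩ := Metric.isOpen_iff.1 (hU t) y hy
        filter_upwards [Ioo_mem_nhdsGT hε] with r hr _
        exact (Metric.closedBall_subset_ball hr.2).trans h2
      · exact Filter.Eventually.of_forall fun r h => absurd h hy
    obtain ⟨r, h2, h3⟩ := (h1.and self_mem_nhdsWithin).exists
    exact ⟨r, h3, h2⟩
  choose r hr0 hr using hball
  obtain ⟨Y, hYF, hYc⟩ := hF.elim_nhds_subcover (fun y => Metric.ball y (r y))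
    (fun y _ => Metric.ball_mem_nhds y (hr0 y))
  refine ⟨fun t => ⋃ y ∈ Y.filter (fun y => t ∈ T ∧ y ∈ U t), Metric.closedBall y (r y) ∩ F,
    ?_, ?_, ?_, ?_⟩
  · intro t
    exact Finset.isCompact_biUnion _ fun y _ =>
      (ProperSpace.isCompact_closedBall y (r y)).inter hF
  · intro t x hx
    simp only [mem_iUnion] at hx
    obtain ⟨y, _, hx⟩ := hx
    exact hx.2
  · intro t x hx
    simp only [mem_iUnion] at hx
    obtain ⟨y, hy, hx⟩ := hx
    rw [Finset.mem_filter] at hy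
    exact hr y t hy.2.1 hy.2.2 hx.1
  · intro x hx
    have := hYc hx
    simp only [mem_iUnion] at this
    obtain ⟨y, hy, hxy⟩ := this
    refine ⟨y, hYF y hy, fun t ht hyt => ?_⟩
    simp only [mem_iUnion]
    exact ⟨y, Finset.mem_filter.2 ⟨hy, ht, hyt⟩, Metric.ball_subset_closedBall hxy, hx⟩

/-- a covering by `k` translates of the interior gives a splitting into `k` sets of smaller width -/
theorem splits_of_cover {n : ℕ} {F : Set (Eu n)} (hF : IsCompact F)
    (hFi : (interior F).Nonempty) (T : Finset (Eu n)) (k : ℕ) (hk : T.card ≤ k)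
    (hT : F ⊆ ⋃ t ∈ T, (fun x => t + x) '' interior F) : SplitsInto F k := by
  classical
  obtain ⟨C, h1, h2, h3, h4⟩ := shrink hF T
  have hcov : ∀ x ∈ F, ∃ t ∈ T, x ∈ C t := by
    intro x hx
    obtain ⟨y, hy, h5⟩ := h4 x hx
    have := hT hy
    simp only [mem_iUnion, exists_prop] at this
    obtain ⟨t, ht, h6⟩ := this
    exact ⟨t, ht, h5 t ht h6⟩
  -- enumerate `T` by `Fin k`
  have hTne : T.Nonempty := by
    obtain ⟨x, hx⟩ := hFi
    obtain ⟨t, ht, _⟩ := hcov x (interior_subset hx)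
    exact ⟨t, ht⟩
  obtain ⟨t0, ht0⟩ := hTne
  obtain ⟨e, he⟩ : ∃ e : Fin k → Eu n, ∀ t ∈ T, ∃ i, e i = t := by
    let f : T ↪ Fin k := (T.equivFin.toEmbedding).trans (Fin.castLEEmb hk)
    refine ⟨fun i => if h : ∃ t : T, f t = i then (h.choose : Eu n) else t0, fun t ht => ?_⟩
    refine ⟨f ⟨t, ht⟩, ?_⟩
    have h : ∃ s : T, f s = f ⟨t, ht⟩ := ⟨⟨t, ht⟩, rfl⟩
    simp only [dif_pos h]
    have := f.injective h.choose_spec
    rw [this]
  refine ⟨disjointed (fun i => C (e i)), ?_, ?_, ?_⟩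
  · rw [iUnion_disjointed]
    apply subset_antisymm
    · exact iUnion_subset fun i => h2 _
    · intro x hx
      obtain ⟨t, ht, hxt⟩ := hcov x hx
      obtain ⟨i, hi⟩ := he t ht
      exact mem_iUnion.2 ⟨i, by rw [hi]; exact hxt⟩
  · intro i j hij
    exact disjoint_disjointed _ hij
  · intro i
    exact smallerWidth_of_subset hF hFi (disjointed_subset _ _) (h1 (e i)) (e i) (h3 (e i))

end Pool.Agent.H65.WP
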